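import Mathlib
import Pool.Agent.H759R2.Kad.Props6

set_option autoImplicit false

open scoped ComplexOrder InnerProductSpace ComplexConjugate
open Finset

noncomputable section

namespace H759R2.Kad

universe u v

theorem prove6_supp : W_supp.{u} := by
  intro A _ hW C hne hC hdi
  have hch : IsChn C := by
    refine ⟨hne, fun v hv => ?_, fun v hv w hw => ?_⟩
    · unfold PIs
      rw [(hC v hv).1, (hC v hv).2, (hC v hv).2]
    · unfold Exd
      rw [(hC v hv).1, (hC v hv).2, (hC w hw).1, (hC w hw).2]
      exact hdi v hv w hw
  obtain ⟨V, hV⟩ := hW.chain C hch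
  have hVp : ∀ p ∈ C, V * p = p := by
    intro p hp
    have := hV.ext p hp
    unfold Exd at this
    rwa [(hC p hp).1, (hC p hp).2] at this
  have hVV : V * V = V := by
    have := hV.ann (V - 1) 1 (fun p hp => by rw [mul_one, sub_mul, one_mul, hVp p hp, sub_self])
    rw [mul_one, sub_mul, one_mul] at this
    exact sub_eq_zero.mp this
  have hpi := hV.pi
  unfold PIs at hpi
  have hE : (star V * V) * (star V * V) = star V * V := by
    calc (star V * V) * (star V * V) = star V * (V * star V * V) := by noncomm_ring
      _ = _ := by rw [hpi]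
  have hEs : star (star V * V) = star V * V := by rw [star_mul, star_star]
  have hsp : ∀ p ∈ C, star V * p = p := by
    intro p hp
    have h0 : star (p - (star V * V) * p) * (p - (star V * V) * p) = 0 := by
      rw [star_sub, star_mul, hEs, (hC p hp).1]
      have e1 : p * (star V * V) * p = p := by
        calc p * (star V * V) * p = star (V * p) * (V * p) := by
              rw [star_mul, (hC p hp).1]; noncomm_ring
          _ = p := by rw [hVp p hp, (hC p hp).1, (hC p hp).2]
      calc (p - p * (star V * V)) * (p - (star V * V) * p)
          = p * p - p * (star V * V) * p - p * (star V * V) * p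
            + p * ((star V * V) * (star V * V)) * p := by noncomm_ring
        _ = 0 := by rw [hE, e1, (hC p hp).2]; abel
    have h1 := sub_eq_zero.mp ((CStarRing.star_mul_self_eq_zero_iff _).mp h0)
    rw [mul_assoc, hVp p hp] at h1
    exact h1.symm
  have hsV : star V * V = V := by
    have := hV.ann (star V - 1) 1 (fun p hp => by rw [mul_one, sub_mul, one_mul, hsp p hp, sub_self])
    rw [mul_one, sub_mul, one_mul] at this
    exact sub_eq_zero.mp this
  have hsa : star V = V := by
    calc star V = star (star V * V) := by rw [hsV]
      _ = V := by rw [hEs, hsV]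
  refine ⟨V, ⟨hsa, hVV⟩, hVp, hV.ann, ?_⟩
  intro φ hφ w ε hε
  obtain ⟨p, hp, h1, -⟩ := hφ.chain w C V hch hV ε hε
  refine ⟨p, hp, ?_⟩
  rwa [hsV, (hC p hp).1, (hC p hp).2] at h1

end H759R2.Kad
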