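import Mathlib
import Pool.Agent.H759R2.Kad.Props6

set_option autoImplicit false

open scoped ComplexOrder InnerProductSpace ComplexConjugate
open Finset

noncomputable section

namespace H759R2.Kad

universe u v

/-- if `star v * v = p` is a projection then `v * p = v` -/
theorem W5_mul_initial {A : Type u} [CStarAlgebra A] {p v : A} (hp : Prj p) (hv : star v * v = p) :
    v * p = v := by
  have h : star (v - v * p) * (v - v * p) = 0 := by
    rw [star_sub, star_mul, hp.1]
    calc (star v - p * star v) * (v - v * p)
        = star v * v - (star v * v) * p - p * (star v * v) + p * (star v * v) * p := by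
          noncomm_ring
      _ = 0 := by rw [hv, hp.2, hp.2]; noncomm_ring
  have := CStarRing.star_mul_self_eq_zero_iff (v - v * p) |>.mp h
  exact (sub_eq_zero.mp this).symm

theorem prove6_sub : W_sub.{u} := by
  intro A _ s p hs hp hsp hf v hv hpv
  have hps : p * s = p := by
    have := congrArg star hsp
    rwa [star_mul, hs.1, hp.1] at this
  have hvp : v * p = v := W5_mul_initial hp hv
  have hsv : s * v = v := by rw [← hpv, ← mul_assoc, hsp]
  have h1 : (s - p) * v = 0 := by rw [sub_mul, hsv, hpv, sub_self]
  have h2 : star v * (s - p) = 0 := by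
    have := congrArg star h1
    rwa [star_mul, star_sub, hs.1, hp.1, star_zero] at this
  have h3 : v * (s - p) = 0 := by rw [← hvp, mul_assoc, mul_sub, hps, hp.2, sub_self, mul_zero]
  have h4 : (s - p) * star v = 0 := by
    have := congrArg star h3
    rwa [star_mul, star_sub, hs.1, hp.1, star_zero] at this
  have h5 : (s - p) * (s - p) = s - p := by
    rw [sub_mul, mul_sub, mul_sub, hs.2, hsp, hps, hp.2]; abel
  have hu := hf (v + (s - p)) (by
    rw [star_add, star_sub, hs.1, hp.1, add_mul, mul_add, mul_add, hv, h2, h1, h5]; abel) (by
    rw [mul_add, mul_sub, hsv, hs.2, hsp])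
  rw [star_add, star_sub, hs.1, hp.1, add_mul, mul_add, mul_add, h3, h4, h5] at hu
  have : v * star v = (v * star v + 0 + (0 + (s - p))) - (s - p) := by abel
  rw [this, hu]
  abel

end H759R2.Kad
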