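import Mathlib
import Pool.Agent.H759R2.Kad.Props7

set_option autoImplicit false

open scoped ComplexOrder InnerProductSpace ComplexConjugate
open Finset

noncomputable section

namespace H759R2.Kad

universe u v

theorem Q14_mul_initial {A : Type u} [CStarAlgebra A] {p v : A} (hp : Prj p)
    (hv : star v * v = p) : v * p = v := by
  have h : star (v - v * p) * (v - v * p) = 0 := by
    rw [star_sub, star_mul, hp.1]
    calc (star v - p * star v) * (v - v * p)
        = star v * v - (star v * v) * p - p * (star v * v) + p * (star v * v) * p := by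
          noncomm_ring
      _ = 0 := by rw [hv, hp.2, hp.2]; noncomm_ring
  have := CStarRing.star_mul_self_eq_zero_iff (v - v * p) |>.mp h
  exact (sub_eq_zero.mp this).symm

section

variable {F : Type u} [CStarAlgebra F] {k : ℕ} {V : Fin k → F} {P : F} {N : Type u}
  [CStarAlgebra N] {j : N →⋆ₙₐ[ℂ] F}

/-- the map -/
def Q14_f (V : Fin k → F) (j : N →⋆ₙₐ[ℂ] F) (Y : CStarMatrix (Fin k) (Fin k) N) : F :=
  ∑ a, ∑ b, V a * j (Y a b) * star (V b)

theorem Q14_VP (hT : Tup V P) (a : Fin k) : V a * P = V a :=
  Q14_mul_initial hT.pr (by simpa using hT.rel a a)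

theorem Q14_PV (hT : Tup V P) (a : Fin k) : P * star (V a) = star (V a) := by
  have := congrArg star (Q14_VP hT a)
  rwa [star_mul, hT.pr.1] at this

theorem Q14_jP (hC : Cor j P) (x : N) : j x * P = j x := by
  rw [← hC.one, ← map_mul, mul_one]

theorem Q14_Pj (hC : Cor j P) (x : N) : P * j x = j x := by
  rw [← hC.one, ← map_mul, one_mul]

theorem Q14_mul (hT : Tup V P) (hC : Cor j P) (Y Z : CStarMatrix (Fin k) (Fin k) N) :
    Q14_f V j (Y * Z) = Q14_f V j Y * Q14_f V j Z := by
  have key : ∀ a b c d : Fin k, (V a * j (Y a b) * star (V b)) * (V c * j (Z c d) * star (V d))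
      = if b = c then V a * j (Y a b * Z b d) * star (V d) else 0 := by
    intro a b c d
    have e : (V a * j (Y a b) * star (V b)) * (V c * j (Z c d) * star (V d))
        = V a * j (Y a b) * (star (V b) * V c) * j (Z c d) * star (V d) := by noncomm_ring
    rw [e, hT.rel]
    split_ifs with h
    · subst h
      rw [mul_assoc (V a) _ P, Q14_jP hC, map_mul]
      noncomm_ring
    · simp
  have hr : ∀ a b : Fin k, (V a * j (Y a b) * star (V b)) *
      (∑ c, ∑ d, V c * j (Z c d) * star (V d)) = ∑ d, V a * j (Y a b * Z b d) * star (V d) := by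
    intro a b
    rw [Finset.mul_sum, Finset.sum_eq_single b]
    · rw [Finset.mul_sum]
      refine Finset.sum_congr rfl fun d _ => ?_
      rw [key, if_pos rfl]
    · intro c _ hc
      rw [Finset.mul_sum]
      refine Finset.sum_eq_zero fun d _ => ?_
      rw [key, if_neg (Ne.symm hc)]
    · simp
  unfold Q14_f
  rw [Finset.sum_mul]
  refine Finset.sum_congr rfl fun a _ => ?_
  rw [Finset.sum_mul]
  simp only [hr]
  rw [Finset.sum_comm]
  refine Finset.sum_congr rfl fun d _ => ?_
  rw [CStarMatrix.mul_apply, map_sum, Finset.mul_sum, Finset.sum_mul]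

theorem Q14_entry (hT : Tup V P) (hC : Cor j P) (Y : CStarMatrix (Fin k) (Fin k) N)
    (a b : Fin k) : star (V a) * Q14_f V j Y * V b = j (Y a b) := by
  unfold Q14_f
  rw [Finset.mul_sum, Finset.sum_mul, Finset.sum_eq_single a]
  · rw [Finset.mul_sum, Finset.sum_mul, Finset.sum_eq_single b]
    · calc star (V a) * (V a * j (Y a b) * star (V b)) * V b
          = (star (V a) * V a) * j (Y a b) * (star (V b) * V b) := by noncomm_ring
        _ = j (Y a b) := by
          rw [hT.rel, hT.rel, if_pos rfl, if_pos rfl, mul_assoc, Q14_jP hC, Q14_Pj hC]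
    · intro d _ hd
      calc star (V a) * (V a * j (Y a d) * star (V d)) * V b
          = (star (V a) * V a) * j (Y a d) * (star (V d) * V b) := by noncomm_ring
        _ = 0 := by rw [hT.rel d b, if_neg hd, mul_zero]
    · simp
  · intro c _ hc
    rw [Finset.mul_sum, Finset.sum_mul]
    refine Finset.sum_eq_zero fun d _ => ?_
    calc star (V a) * (V c * j (Y c d) * star (V d)) * V b
        = (star (V a) * V c) * j (Y c d) * (star (V d) * V b) := by noncomm_ring
      _ = 0 := by rw [hT.rel a c, if_neg (Ne.symm hc), zero_mul, zero_mul]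
  · simp

end

theorem prove7_phi : Q_phi.{u} := by
  intro F _ k V P hT N _ j hC
  refine ⟨{ toFun := Q14_f V j
            map_smul' := ?_
            map_zero' := ?_
            map_add' := ?_
            map_mul' := Q14_mul hT hC
            map_star' := ?_ }, fun Y => rfl, ?_, ?_, ?_⟩
  · intro c Y
    simp only [Q14_f, CStarMatrix.smul_apply, map_smul, Algebra.mul_smul_comm,
      Algebra.smul_mul_assoc, Finset.smul_sum]
    rfl
  · simp [Q14_f]
  · intro Y Z
    simp [Q14_f, mul_add, add_mul, Finset.sum_add_distrib]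
  · intro Y
    simp only [Q14_f, star_sum, star_mul, star_star, CStarMatrix.star_apply, map_star]
    rw [Finset.sum_comm]
    refine Finset.sum_congr rfl fun a _ => Finset.sum_congr rfl fun b _ => ?_
    rw [mul_assoc]
  · intro Y Z hYZ
    change Q14_f V j Y = Q14_f V j Z at hYZ
    ext a b
    apply hC.inj
    rw [← Q14_entry hT hC Y a b, ← Q14_entry hT hC Z a b, hYZ]
  · change Q14_f V j 1 = _
    unfold Q14_f
    refine Finset.sum_congr rfl fun a _ => ?_
    rw [Finset.sum_eq_single a]
    · rw [CStarMatrix.one_apply, if_pos rfl, hC.one, Q14_VP hT]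
    · intro b _ hb
      rw [CStarMatrix.one_apply, if_neg (Ne.symm hb), map_zero, mul_zero, zero_mul]
    · simp
  · intro y hy
    have hs : ∀ a b : Fin k, ∃ x, j x = star (V a) * y * V b := by
      intro a b
      apply hC.surj
      calc P * (star (V a) * y * V b) * P = (P * star (V a)) * y * (V b * P) := by noncomm_ring
        _ = _ := by rw [Q14_PV hT, Q14_VP hT]
    choose Y hY using hs
    refine ⟨CStarMatrix.ofMatrix (Matrix.of Y), ?_⟩
    change Q14_f V j _ = _
    unfold Q14_f
    conv_rhs => rw [← hy, Finset.sum_mul, Finset.sum_mul]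
    refine Finset.sum_congr rfl fun a _ => ?_
    rw [Finset.mul_sum]
    refine Finset.sum_congr rfl fun b _ => ?_
    rw [CStarMatrix.ofMatrix_apply, Matrix.of_apply, hY]
    noncomm_ring

end H759R2.Kad
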