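import Mathlib
import Pool.Agent.H759R2.Kad.Props7

set_option autoImplicit false

open scoped ComplexOrder InnerProductSpace ComplexConjugate
open Finset

noncomputable section

namespace H759R2.Kad

universe u v

/-- A non-unital C*-algebra with an identity element is a unital C*-algebra. -/
@[reducible]
def Q4_unital (N : Type u) [i : NonUnitalCStarAlgebra N] (e : N) (h1 : ∀ x, e * x = x)
    (h2 : ∀ x, x * e = x) : CStarAlgebra N :=
  letI r : Ring N := { (inferInstance : NonUnitalRing N) with
    one := e, one_mul := h1, mul_one := h2 }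
  letI nr : NormedRing N := { i.toNonUnitalNormedRing, r with }
  letI al : Algebra ℂ N := Algebra.ofModule (fun r x y => smul_mul_assoc r x y)
    (fun r x y => mul_smul_comm r x y)
  letI na : NormedAlgebra ℂ N := { al with norm_smul_le := norm_smul_le }
  { nr, na, i.toStarRing with
    complete := i.complete
    norm_mul_self_le := i.norm_mul_self_le
    star_smul := i.star_smul }

/-- the corner as a non-unital star subalgebra -/
def Q4_corner {F : Type u} [CStarAlgebra F] (P : F) (hP : Prj P) :
    NonUnitalStarSubalgebra ℂ F where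
  carrier := {y | P * y * P = y}
  add_mem' := by
    intro a b ha hb
    simp only [Set.mem_ofPred_eq] at *
    rw [mul_add, add_mul, ha, hb]
  zero_mem' := by simp
  mul_mem' := by
    intro a b ha hb
    simp only [Set.mem_ofPred_eq] at *
    have h1 : P * a = a := by rw [← ha, ← mul_assoc, ← mul_assoc, hP.2]
    have h2 : b * P = b := by rw [← hb, mul_assoc, hP.2]
    rw [← mul_assoc, h1, mul_assoc, h2]
  smul_mem' := by
    intro c a ha
    simp only [Set.mem_ofPred_eq] at *
    rw [mul_smul_comm, smul_mul_assoc, ha]
  star_mem' := by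
    intro a ha
    simp only [Set.mem_ofPred_eq] at *
    have := congrArg star ha
    rwa [star_mul, star_mul, hP.1, ← mul_assoc] at this

theorem Q4_closed {F : Type u} [CStarAlgebra F] (P : F) (hP : Prj P) :
    IsClosed (Q4_corner P hP : Set F) := by
  have : (Q4_corner P hP : Set F) = {y | P * y * P = y} := rfl
  rw [this]
  exact isClosed_eq (by fun_prop) (by fun_prop)

theorem prove7_cor : Q_cor.{u} := by
  intro F _ P hP
  letI : NonUnitalCStarAlgebra (Q4_corner P hP) :=
    NonUnitalStarSubalgebra.nonUnitalCStarAlgebra _ (h_closed := Q4_closed P hP)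
  have hmem : ∀ y : Q4_corner P hP, P * (y : F) * P = y := fun y => y.2
  have hPm : P ∈ Q4_corner P hP := by
    change P * P * P = P
    rw [hP.2, hP.2]
  let e : Q4_corner P hP := ⟨P, hPm⟩
  have h1 : ∀ x : Q4_corner P hP, e * x = x := by
    intro x
    apply Subtype.ext
    change P * (x : F) = x
    conv_rhs => rw [← hmem x]
    conv_lhs => rw [← hmem x]
    rw [← mul_assoc, ← mul_assoc, hP.2]
  have h2 : ∀ x : Q4_corner P hP, x * e = x := by
    intro x
    apply Subtype.ext
    change (x : F) * P = x
    conv_rhs => rw [← hmem x]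
    conv_lhs => rw [← hmem x]
    rw [mul_assoc, hP.2]
  refine ⟨Q4_corner P hP, Q4_unital _ e h1 h2, ?_⟩
  letI : CStarAlgebra (Q4_corner P hP) := Q4_unital _ e h1 h2
  refine ⟨{ toFun := Subtype.val
            map_smul' := fun _ _ => rfl
            map_zero' := rfl
            map_add' := fun _ _ => rfl
            map_mul' := fun _ _ => rfl
            map_star' := fun _ => rfl }, ?_, ?_, ?_⟩
  · exact Subtype.val_injective
  · rfl
  · intro y hy
    exact ⟨⟨y, hy⟩, rfl⟩

end H759R2.Kad
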