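import Mathlib
import Pool.Agent.H759R2.Kad.Props7

set_option autoImplicit false

open scoped ComplexOrder InnerProductSpace ComplexConjugate
open Finset

noncomputable section

namespace H759R2.Kad

universe u v

theorem Q5_mul_initial {A : Type u} [CStarAlgebra A] {p v : A} (hp : Prj p)
    (hv : star v * v = p) : v * p = v := by
  have h : star (v - v * p) * (v - v * p) = 0 := by
    rw [star_sub, star_mul, hp.1]
    calc (star v - p * star v) * (v - v * p)
        = star v * v - (star v * v) * p - p * (star v * v) + p * (star v * v) * p := by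
          noncomm_ring
      _ = 0 := by rw [hv, hp.2, hp.2]; noncomm_ring
  have := CStarRing.star_mul_self_eq_zero_iff (v - v * p) |>.mp h
  exact (sub_eq_zero.mp this).symm

/-- factorisation of a projection matrix -/
theorem Q5_matrix {n : ℕ} (G : Matrix (Fin n) (Fin n) ℂ) (hG : G.IsHermitian) (hGG : G * G = G) :
    ∃ (k : ℕ) (U : Fin n → Fin k → ℂ),
      (∀ a b, ∑ i, star (U i a) * U i b = if a = b then 1 else 0) ∧
      ∀ i j, ∑ a, U i a * star (U j a) = G i j := by
  set V : Matrix (Fin n) (Fin n) ℂ := (hG.eigenvectorUnitary : Matrix (Fin n) (Fin n) ℂ) with hV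
  set L : Matrix (Fin n) (Fin n) ℂ := Matrix.diagonal (RCLike.ofReal ∘ hG.eigenvalues) with hL
  have hsp : G = V * L * star V := by
    have := hG.spectral_theorem
    rw [Unitary.conjStarAlgAut_apply] at this
    exact this
  have hVV : star V * V = 1 := Unitary.coe_star_mul_self hG.eigenvectorUnitary
  have hLG : L = star V * G * V := by
    rw [hsp]
    calc L = 1 * L * 1 := by rw [one_mul, mul_one]
      _ = (star V * V) * L * (star V * V) := by rw [hVV]
      _ = _ := by noncomm_ring
  have hVV' : V * star V = 1 := Unitary.coe_mul_star_self hG.eigenvectorUnitary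
  have hLL : L * L = L := by
    rw [hLG]
    calc star V * G * V * (star V * G * V) = star V * (G * (V * star V) * G) * V := by
          noncomm_ring
      _ = _ := by rw [hVV', mul_one, hGG]
  have hev : ∀ i, hG.eigenvalues i = 1 ∨ hG.eigenvalues i = 0 := by
    intro i
    have h := congrFun (congrFun hLL i) i
    rw [hL, Matrix.diagonal_mul_diagonal, Matrix.diagonal_apply_eq, Matrix.diagonal_apply_eq] at h
    simp only [Function.comp_apply] at h
    have h' : hG.eigenvalues i * hG.eigenvalues i = hG.eigenvalues i := by exact_mod_cast h
    rcases IsIdempotentElem.iff_eq_zero_or_one.mp h' with h | h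
    · exact Or.inr h
    · exact Or.inl h
  classical
  let I : Type := {i // hG.eigenvalues i = 1}
  let e : Fin (Fintype.card I) ≃ I := (Fintype.equivFin I).symm
  refine ⟨Fintype.card I, fun i a => V i (e a), ?_, ?_⟩
  · intro a b
    have h := congrFun (congrFun hVV (e a)) (e b)
    rw [Matrix.mul_apply, Matrix.one_apply] at h
    simp only [Matrix.star_apply] at h
    rw [h]
    by_cases hab : a = b
    · subst hab; simp
    · rw [if_neg hab, if_neg]
      intro h'
      exact hab (e.injective (Subtype.ext h'))
  · intro i j
    have h := congrFun (congrFun hsp i) j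
    rw [h, Matrix.mul_apply]
    have h1 : ∀ c, (V * L) i c * (star V) c j = if hG.eigenvalues c = 1 then V i c * star (V j c)
        else 0 := by
      intro c
      rw [hL, Matrix.mul_diagonal, Matrix.star_apply]
      simp only [Function.comp_apply]
      split_ifs with hc
      · rw [hc]; simp
      · rw [(hev c).resolve_left hc]; simp
    simp only [h1]
    rw [← Finset.sum_filter]
    rw [Finset.sum_subtype (Finset.univ.filter fun c => hG.eigenvalues c = 1)
      (p := fun c => hG.eigenvalues c = 1) (by simp) (fun c => V i c * star (V j c))]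
    exact Equiv.sum_comp e (fun c : I => V i c * star (V j c))

theorem prove7_diag : Q_diag.{u} := by
  intro F _ n T P hT hP0 hmin E hE hS
  obtain ⟨S, hSS, hRS⟩ := hS
  set R := ∑ i, T i * star (T i) with hR
  have hTP : ∀ i, T i * P = T i := fun i => Q5_mul_initial hT.pr (by simpa using hT.rel i i)
  have hPT : ∀ i, P * star (T i) = star (T i) := by
    intro i
    have := congrArg star (hTP i)
    rwa [star_mul, hT.pr.1] at this
  set E' := S * star S with hE'
  have hSE : S * E = S := Q5_mul_initial hE hSS
  have hE's : star E' = E' := by rw [hE', star_mul, star_star]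
  have hE'2 : E' * E' = E' := by
    calc E' * E' = S * (star S * S) * star S := by rw [hE']; noncomm_ring
      _ = E' := by rw [hSS, hSE]
  have hRE' : R * E' = E' := by rw [hE', ← mul_assoc, hRS]
  have hRs : star R = R := by
    rw [hR, star_sum]
    exact Finset.sum_congr rfl fun i _ => by rw [star_mul, star_star]
  have hE'R : E' * R = E' := by
    have := congrArg star hRE'
    rwa [star_mul, hE's, hRs] at this
  choose g hg using fun i j => hmin (star (T i) * E' * T j)
  have hg' : ∀ i j, star (T i) * E' * T j = g i j • P := by
    intro i j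
    rw [← hg i j]
    calc star (T i) * E' * T j = (P * star (T i)) * E' * (T j * P) := by rw [hPT, hTP]
      _ = _ := by noncomm_ring
  have hinj : ∀ a b : ℂ, a • P = b • P → a = b := fun a b h => smul_left_injective ℂ hP0 h
  set G : Matrix (Fin n) (Fin n) ℂ := Matrix.of g with hG
  have hGapp : ∀ i j, G i j = g i j := fun i j => rfl
  have hherm : G.IsHermitian := by
    ext i j
    rw [Matrix.conjTranspose_apply, hGapp, hGapp]
    apply hinj
    rw [← hg' i j]
    have := congrArg star (hg' j i)
    rw [star_mul, star_mul, star_star, hE's, star_smul, hT.pr.1, ← mul_assoc] at this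
    exact this.symm
  have hid : G * G = G := by
    ext i j
    rw [Matrix.mul_apply]
    simp only [hGapp]
    apply hinj
    rw [Finset.sum_smul, ← hg' i j]
    calc ∑ x, (g i x * g x j) • P = ∑ x, (g i x • P) * (g x j • P) := by
          refine Finset.sum_congr rfl fun x _ => ?_
          rw [smul_mul_smul_comm, hT.pr.2]
      _ = ∑ x, star (T i) * E' * (T x * star (T x)) * (E' * T j) := by
          refine Finset.sum_congr rfl fun x _ => ?_
          rw [← hg', ← hg']
          noncomm_ring
      _ = star (T i) * E' * R * (E' * T j) := by rw [hR, Finset.mul_sum, Finset.sum_mul]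
      _ = star (T i) * (E' * R) * E' * T j := by noncomm_ring
      _ = star (T i) * E' * T j := by rw [hE'R, mul_assoc (star (T i)) E' E', hE'2]
  have hE'sum : E' = ∑ i, ∑ j, G i j • (T i * star (T j)) := by
    calc E' = R * E' * R := by rw [hRE', hE'R]
      _ = ∑ i, ∑ j, (T i * star (T i)) * E' * (T j * star (T j)) := by
          conv_lhs => rw [hR]
          rw [Finset.sum_mul, Finset.sum_mul]
          refine Finset.sum_congr rfl fun i _ => ?_
          rw [Finset.mul_sum]
      _ = _ := by
          refine Finset.sum_congr rfl fun i _ => Finset.sum_congr rfl fun j _ => ?_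
          calc (T i * star (T i)) * E' * (T j * star (T j))
              = T i * (star (T i) * E' * T j) * star (T j) := by noncomm_ring
            _ = G i j • (T i * star (T j)) := by
              rw [hg', mul_smul_comm, smul_mul_assoc, hTP, hGapp]
  obtain ⟨k, U, hU1, hU2⟩ := Q5_matrix G hherm hid
  set W' : Fin k → F := fun a => ∑ i, U i a • T i with hW'
  have hW'W' : ∀ a b, star (W' a) * W' b = if a = b then P else 0 := by
    intro a b
    have h1 : star (W' a) * W' b = (∑ i, star (U i a) * U i b) • P := by
      rw [hW']
      simp only [star_sum, star_smul]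
      rw [Finset.sum_mul, Finset.sum_smul]
      refine Finset.sum_congr rfl fun i _ => ?_
      rw [Finset.mul_sum, Finset.sum_eq_single i]
      · rw [smul_mul_smul_comm, hT.rel, if_pos rfl]
      · intro j _ hj
        rw [smul_mul_smul_comm, hT.rel, if_neg (Ne.symm hj), smul_zero]
      · simp
    rw [h1, hU1]
    split_ifs
    · rw [one_smul]
    · rw [zero_smul]
  have hW'sum : ∑ a, W' a * star (W' a) = E' := by
    rw [hE'sum]
    have h1 : ∀ a, W' a * star (W' a) = ∑ i, ∑ j, (U i a * star (U j a)) • (T i * star (T j)) := by
      intro a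
      rw [hW']
      simp only [star_sum, star_smul]
      rw [Finset.sum_mul]
      refine Finset.sum_congr rfl fun i _ => ?_
      rw [Finset.mul_sum]
      refine Finset.sum_congr rfl fun j _ => ?_
      rw [smul_mul_smul_comm]
    simp only [h1]
    rw [Finset.sum_comm]
    refine Finset.sum_congr rfl fun i _ => ?_
    rw [Finset.sum_comm]
    refine Finset.sum_congr rfl fun j _ => ?_
    rw [← Finset.sum_smul, hU2]
  have hW'P : ∀ a, W' a * P = W' a := by
    intro a
    rw [hW']
    simp only [Finset.sum_mul, smul_mul_assoc, hTP]
  have hE'W' : ∀ b, E' * W' b = W' b := by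
    intro b
    rw [← hW'sum, Finset.sum_mul, Finset.sum_eq_single b]
    · rw [mul_assoc, hW'W', if_pos rfl, hW'P]
    · intro a _ ha
      rw [mul_assoc, hW'W', if_neg ha, mul_zero]
    · simp
  refine ⟨k, fun a => star S * W' a, ⟨hT.pr, ?_⟩, ?_⟩
  · intro a b
    rw [star_mul, star_star]
    calc star (W' a) * S * (star S * W' b) = star (W' a) * (E' * W' b) := by
          rw [hE']; noncomm_ring
      _ = _ := by rw [hE'W', hW'W']
  · have h1 : ∀ a, star S * W' a * star (star S * W' a) = star S * (W' a * star (W' a)) * S := by
      intro a
      rw [star_mul, star_star]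
      noncomm_ring
    simp only [h1]
    rw [← Finset.sum_mul, ← Finset.mul_sum, hW'sum, hE']
    calc star S * (S * star S) * S = (star S * S) * (star S * S) := by noncomm_ring
      _ = E := by rw [hSS, hE.2]

end H759R2.Kad
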