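import Mathlib
import Pool.Agent.H759R2.Kad.Props7

set_option autoImplicit false

open scoped ComplexOrder InnerProductSpace ComplexConjugate
open Finset

noncomputable section

namespace H759R2.Kad

universe u v

theorem prove7_simb : R_simb.{u, v} := by
  intro A _ _ _ H _ _ _ w w₁ S S' b K m hb hK h1 h2 hS hS' hw hl X
  apply ContinuousLinearMap.opNorm_le_bound _ (by positivity)
  intro v
  set u : HH (Fin m) H := WithLp.toLp 2 (fun i => S (v i)) with hu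
  have hui : ∀ i, u i = S (v i) := fun i => rfl
  have h2' : ∀ x, S' (S x) = x := by
    intro x
    have := congrArg (fun T : H →L[ℂ] H => T x) h2
    simpa using this
  have e : ∀ i, amp w (Fin m) X v i = S' ((amp w₁ (Fin m) X u) i) := by
    intro i
    rw [amp_apply, amp_apply, map_sum]
    refine Finset.sum_congr rfl fun j _ => ?_
    rw [hw, hui]
    change _ = S' (S (w (X i j) (S' (S (v j)))))
    rw [h2', h2']
  have hu2 : ‖u‖ ^ 2 ≤ b * ‖v‖ ^ 2 := by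
    rw [PiLp.norm_sq_eq_of_L2, PiLp.norm_sq_eq_of_L2, Finset.mul_sum]
    refine Finset.sum_le_sum fun i _ => ?_
    rw [hui]
    calc ‖S (v i)‖ ^ 2 ≤ (‖S‖ * ‖v i‖) ^ 2 := by
          gcongr
          exact S.le_opNorm _
      _ = ‖S‖ ^ 2 * ‖v i‖ ^ 2 := by ring
      _ ≤ b * ‖v i‖ ^ 2 := by gcongr
  have hr : ‖amp w (Fin m) X v‖ ^ 2 ≤ b * ‖amp w₁ (Fin m) X u‖ ^ 2 := by
    rw [PiLp.norm_sq_eq_of_L2, PiLp.norm_sq_eq_of_L2, Finset.mul_sum]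
    refine Finset.sum_le_sum fun i _ => ?_
    rw [e]
    calc ‖S' ((amp w₁ (Fin m) X u) i)‖ ^ 2 ≤ (‖S'‖ * ‖(amp w₁ (Fin m) X u) i‖) ^ 2 := by
          gcongr
          exact S'.le_opNorm _
      _ = ‖S'‖ ^ 2 * ‖(amp w₁ (Fin m) X u) i‖ ^ 2 := by ring
      _ ≤ b * ‖(amp w₁ (Fin m) X u) i‖ ^ 2 := by gcongr
  have hm : ‖amp w₁ (Fin m) X u‖ ≤ K * ‖X‖ * ‖u‖ :=
    ((amp w₁ (Fin m) X).le_opNorm u).trans (mul_le_mul_of_nonneg_right (hl X) (norm_nonneg _))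
  have hfin : ‖amp w (Fin m) X v‖ ^ 2 ≤ (b * K * ‖X‖ * ‖v‖) ^ 2 := by
    calc ‖amp w (Fin m) X v‖ ^ 2 ≤ b * ‖amp w₁ (Fin m) X u‖ ^ 2 := hr
      _ ≤ b * (K * ‖X‖ * ‖u‖) ^ 2 := by gcongr
      _ = b * (K * ‖X‖) ^ 2 * ‖u‖ ^ 2 := by ring
      _ ≤ b * (K * ‖X‖) ^ 2 * (b * ‖v‖ ^ 2) := by gcongr
      _ = _ := by ring
  exact (pow_le_pow_iff_left₀ (norm_nonneg _) (by positivity) two_ne_zero).mp hfin

end H759R2.Kad
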