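import Mathlib
import Pool.Agent.H759R2.Kad.Props6

set_option autoImplicit false

open scoped ComplexOrder InnerProductSpace ComplexConjugate
open Finset

noncomputable section

namespace H759R2.Kad

universe u v

theorem W7_mono {A : Type u} [CStarAlgebra A] {φ : A →ₗ[ℂ] ℂ} (hφ : Nrm φ) {P b : A} (hP : Prj P)
    (hb : Prj b) (h : P * b = b) : (φ b).re ≤ (φ P).re := by
  have h' : b * P = b := by
    have := congrArg star h
    rwa [star_mul, hP.1, hb.1] at this
  have h1 := hφ.pos (P - b)
  have e : star (P - b) * (P - b) = P - b := by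
    rw [star_sub, hP.1, hb.1, sub_mul, mul_sub, mul_sub, hP.2, hb.2, h, h']; abel
  rw [e, map_sub] at h1
  have h2 := (Complex.le_def.mp h1).1
  rw [Complex.sub_re, Complex.zero_re] at h2
  linarith

theorem prove6_exh (h : W_supp.{u}) : W_exh.{u} := by
  intro A _ hW φ₁ φ₂ h₁ h₂ p hp hlt
  -- Zorn's lemma
  let S : Type u := {b : A // Prj b ∧ p * b = b ∧ (φ₂ b).re ≤ (φ₁ b).re}
  have hz : Prj (0 : A) ∧ p * 0 = 0 ∧ (φ₂ 0).re ≤ (φ₁ 0).re :=
    ⟨⟨star_zero A, mul_zero 0⟩, mul_zero p, by simp⟩
  obtain ⟨m, hm⟩ : ∃ m : S, ∀ a : S, (a : A) * m = m → (m : A) * a = a := by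
    apply exists_maximal_of_chains_bounded (α := S) (r := fun a b => (b : A) * a = a)
    · intro c hc
      rcases c.eq_empty_or_nonempty with rfl | hne
      · exact ⟨⟨0, hz⟩, by simp⟩
      · obtain ⟨P, hP, hPb, hann, hno⟩ := h A hW ((fun b : S => (b : A)) '' c) (hne.image _)
          (by rintro _ ⟨b, _, rfl⟩; exact b.2.1)
          (by
            rintro _ ⟨a, ha, rfl⟩ _ ⟨b, hb, rfl⟩
            by_cases hab : a = b
            · subst hab; exact Or.inl a.2.1.2
            · exact hc ha hb hab)
        have hpP : p * P = P := by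
          have := hann (p - 1) 1 (by
            rintro _ ⟨b, _, rfl⟩
            rw [mul_one, sub_mul, one_mul, b.2.2.1, sub_self])
          rw [mul_one, sub_mul, one_mul] at this
          exact sub_eq_zero.mp this
        refine ⟨⟨P, hP, hpP, ?_⟩, fun a ha => hPb a ⟨a, ha, rfl⟩⟩
        apply le_of_forall_pos_le_add
        intro ε hε
        obtain ⟨_, ⟨b, hb, rfl⟩, hle⟩ := hno φ₂ h₂ 1 ε hε
        simp only [star_one, mul_one, one_mul] at hle
        have h3 := b.2.2.2
        have h4 := W7_mono h₁ hP b.2.1 (hPb b ⟨b, hb, rfl⟩)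
        linarith
    · intro a b c hab hbc
      rw [← hab, ← mul_assoc, hbc]
  have hpm : p * (m : A) = m := m.2.2.1
  have hmp : (m : A) * p = m := by
    have := congrArg star hpm
    rwa [star_mul, hp.1, m.2.1.1] at this
  have hmm : (m : A) * m = m := m.2.1.2
  have hp' : Prj (p - (m : A)) := by
    refine ⟨by rw [star_sub, hp.1, m.2.1.1], ?_⟩
    rw [sub_mul, mul_sub, mul_sub, hp.2, hpm, hmp, hmm]; abel
  refine ⟨p - m, hp', by rw [mul_sub, hp.2, hpm], ?_, ?_⟩
  · intro h0
    have : p = m := sub_eq_zero.mp h0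
    have h3 := m.2.2.2
    rw [← this] at h3
    linarith
  · intro e he hpe
    by_contra hcon
    push Not at hcon
    have hme : (m : A) * e = 0 := by
      rw [← hpe, ← mul_assoc, mul_sub, hmp, hmm, sub_self, zero_mul]
    have hem : e * (m : A) = 0 := by
      have := congrArg star hme
      rwa [star_mul, he.1, m.2.1.1, star_zero] at this
    have hpe' : p * e = e := by
      conv_lhs => rw [← hpe]
      rw [← mul_assoc, mul_sub, hp.2, hpm, hpe]
    have hbig := hm ⟨(m : A) + e, ⟨by rw [star_add, m.2.1.1, he.1], by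
        rw [add_mul, mul_add, mul_add, hmm, hme, hem, he.2]; abel⟩, by rw [mul_add, hpm, hpe'], by
        rw [map_add, map_add, Complex.add_re, Complex.add_re]
        have h3 := m.2.2.2
        linarith⟩ (by
          change ((m : A) + e) * m = m
          rw [add_mul, hmm, hem, add_zero])
    change (m : A) * (m + e) = m + e at hbig
    rw [mul_add, hmm, hme, add_zero] at hbig
    have he0 : e = 0 := by
      have := left_eq_add.mp hbig
      exact this
    rw [he0] at hcon
    simp at hcon

end H759R2.Kad
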